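import Pool.Agent.Helper65.NQ.Beam

/-!
# NQ: the mean of one noisy round, numerical estimates
-/

set_option autoImplicit false

namespace Pool.Agent.Helper65.NQ

open Finset
open Pool.Agent.Helper67.EQP (pm sg mext mext_mono mext_sum mext_mul_left mext_const mext_sub
  mext_weight_nonneg pm_abs_le mext_def)

variable {J T : Type} [Fintype J] [DecidableEq J] [Fintype T] [DecidableEq T]

theorem mext_mul_right (y : J → ℝ) (c : ℝ) (f : (J → Bool) → ℝ) :
    mext y (fun z => f z * c) = mext y f * c := by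
  have h := mext_mul_left y c f
  rw [mul_comm (mext y f) c, ← h]
  congr 1
  funext z
  ring

/-- the mean of a function of the decoded outcome, if the outcome is a Fourier sample of `F ∘ par` xor independent
bits -/
theorem round_eq {cl : J → T} (hcl : Function.Surjective cl) (F : (T → Bool) → Bool)
    (δ : J → ℝ) (G : (T → Bool) → ℝ) :
    ∑ y, mext δ (fun c => fh (fun x => F (par cl x)) (fun j => xor (y j) (c j)) ^ 2) *
      G (dec cl y) =
      mext δ (fun c => ∑ k, fh F k ^ 2 * G (dec cl (fun j => xor (rep cl k j) (c j)))) := by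
  simp_rw [← mext_mul_right]
  rw [← mext_sum]
  congr 1
  funext c
  rw [← sum_fh_par hcl F (fun y => G (dec cl (fun j => xor (y j) (c j))))]
  let e : (J → Bool) ≃ (J → Bool) := Function.Involutive.toPerm (fun y j => xor (y j) (c j))
    (fun y => by
      funext j
      show xor (xor (y j) (c j)) (c j) = y j
      cases y j <;> cases c j <;> rfl)
  rw [← e.sum_comp]
  refine sum_congr rfl fun y _ => ?_
  have h1 : (fun j => xor (e y j) (c j)) = y := by
    funext j
    show xor (xor (y j) (c j)) (c j) = y j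
    cases y j <;> cases c j <;> rfl
  rw [h1]
  rfl

open Classical in
/-- **the mean of one noisy round differs from the noiseless mean by at most twice the decoding error** -/
theorem round_mean {cl : J → T} (hcl : Function.Surjective cl) (F : (T → Bool) → Bool)
    {l : ℕ} (hl : ∀ i, l ≤ (univ.filter fun j => cl j = i).card) {δ : J → ℝ} {δ0 : ℝ}
    (h0 : 0 ≤ δ0) (h1 : ∀ j, δ0 ≤ δ j) (h2 : ∀ j, δ j ≤ 1) (hδ1 : δ0 ≤ 1)
    (G : (T → Bool) → ℝ) (hG : ∀ k, |G k| ≤ 1) :
    |∑ y, mext δ (fun c => fh (fun x => F (par cl x)) (fun j => xor (y j) (c j)) ^ 2) *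
      G (dec cl y) - ∑ k, fh F k ^ 2 * G k| ≤ 2 * (Fintype.card T * (1 - δ0 ^ 2 / 4) ^ l) := by
  have hab : ∀ j, |δ j| ≤ 1 := fun j => abs_le.2 ⟨by linarith [h1 j], h2 j⟩
  rw [round_eq hcl F δ G, ← mext_const δ (∑ k, fh F k ^ 2 * G k), ← mext_sub]
  have h3 : ∀ c : J → Bool,
      |∑ k, fh F k ^ 2 * G (dec cl (fun j => xor (rep cl k j) (c j))) - ∑ k, fh F k ^ 2 * G k| ≤
      2 * if ∀ i, (univ.filter fun j => cl j = i ∧ c j = true).card <
        (univ.filter fun j => cl j = i ∧ c j = false).card then 0 else 1 := by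
    intro c
    split_ifs with h
    · have h4 : ∀ k, dec cl (fun j => xor (rep cl k j) (c j)) = k := dec_rep h
      simp_rw [h4]
      rw [sub_self, abs_zero, mul_zero]
    · rw [← sum_sub_distrib]
      refine (abs_sum_le_sum_abs _ _).trans ?_
      have h4 : ∀ k ∈ (univ : Finset (T → Bool)), |fh F k ^ 2 *
          G (dec cl (fun j => xor (rep cl k j) (c j))) - fh F k ^ 2 * G k| ≤ fh F k ^ 2 * 2 := by
        intro k _
        rw [← mul_sub, abs_mul, abs_of_nonneg (sq_nonneg _)]
        refine mul_le_mul_of_nonneg_left ?_ (sq_nonneg _)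
        refine (abs_sub _ _).trans ?_
        linarith [hG k, hG (dec cl (fun j => xor (rep cl k j) (c j)))]
      refine (sum_le_sum h4).trans ?_
      rw [← sum_mul, sum_fh_sq]
      norm_num
  have h5 : |mext δ (fun c => ∑ k, fh F k ^ 2 *
      G (dec cl (fun j => xor (rep cl k j) (c j))) - ∑ k, fh F k ^ 2 * G k)| ≤
      mext δ (fun c => |∑ k, fh F k ^ 2 *
      G (dec cl (fun j => xor (rep cl k j) (c j))) - ∑ k, fh F k ^ 2 * G k|) :=
    pm_abs_le _ (fun j b => mext_weight_nonneg (hab j) b) _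
  refine h5.trans ((mext_mono hab h3).trans ?_)
  rw [mext_mul_left]
  exact mul_le_mul_of_nonneg_left (dec_error hl h0 h1 h2 hδ1) (by norm_num)

/-- the decoding error is small for large `n` -/
theorem exists_n0 (a b : ℕ) {r ε : ℝ} (h0 : 0 ≤ r) (h1 : r < 1) (hε : 0 < ε) :
    ∃ n0, ∀ n ≥ n0, ((a * n + b : ℕ) : ℝ) * r ^ n ≤ ε := by
  have h2 := tendsto_self_mul_const_pow_of_lt_one h0 h1
  have h3 := tendsto_pow_atTop_nhds_zero_of_lt_one h0 h1
  have h4 : Filter.Tendsto (fun n : ℕ => (a : ℝ) * (n * r ^ n) + b * r ^ n) Filter.atTop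
      (nhds (a * 0 + b * 0)) := (h2.const_mul _).add (h3.const_mul _)
  rw [mul_zero, mul_zero, add_zero] at h4
  obtain ⟨n0, hn0⟩ := Filter.eventually_atTop.1 (h4.eventually (gt_mem_nhds hε))
  refine ⟨n0, fun n hn => ?_⟩
  have h5 := (hn0 n hn).le
  push_cast
  linarith

theorem one_sub_pow_le {x : ℝ} (h1 : x ≤ 1) (k : ℕ) : (1 - x) ^ k ≤ Real.exp (-(k * x)) := by
  have h2 : 1 - x ≤ Real.exp (-x) := by
    have := Real.add_one_le_exp (-x)
    linarith
  calc (1 - x) ^ k ≤ Real.exp (-x) ^ k := pow_le_pow_left₀ (by linarith) h2 k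
    _ = Real.exp (-(k * x)) := by
        rw [← Real.exp_nat_mul]
        congr 1
        ring

theorem exp_neg_le_two_pow (n : ℕ) : Real.exp (-n) ≤ 1 / 2 ^ n := by
  rw [Real.exp_neg, ← one_div]
  apply one_div_le_one_div_of_le (by positivity)
  have h : (2 : ℝ) ≤ Real.exp 1 := by
    have := Real.add_one_le_exp (1 : ℝ)
    linarith
  calc (2 : ℝ) ^ n ≤ Real.exp 1 ^ n := pow_le_pow_left₀ (by norm_num) h n
    _ = Real.exp n := by
        rw [← Real.exp_nat_mul]
        congr 1
        ring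

/-- `k ≥ (4/δ²) n` rounds of mean at least `δ` have error at most `2^(-n)` -/
theorem rounds_error {δ : ℝ} (hδ1 : δ ≤ 1) (hδ0 : -1 ≤ δ) {k n : ℕ}
    (h : (n : ℝ) ≤ k * (δ ^ 2 / 4)) : (1 - δ ^ 2 / 4) ^ k ≤ 1 / 2 ^ n := by
  refine (one_sub_pow_le (by nlinarith) k).trans ((Real.exp_le_exp.2 ?_).trans
    (exp_neg_le_two_pow n))
  linarith

end Pool.Agent.Helper65.NQ
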