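import Pool.Agent.Helper65.NQ.Flag

/-!
# NQ: the mean of one run with noisy header, noisy body and noisy target (abstract form)
-/

set_option autoImplicit false

namespace Pool.Agent.Helper65.NQ

open Finset
open Pool.Agent.Helper67.EQP (pm sg mext mext_mono mext_sum mext_mul_left mext_const mext_sub
  mext_add mext_weight_nonneg pm_abs_le sum_bool_mean)

variable {H S J T : Type} [Fintype H] [DecidableEq H] [Fintype S] [DecidableEq S]
  [Fintype J] [DecidableEq J] [Fintype T] [DecidableEq T]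

theorem mext_abs_le {δ : J → ℝ} (hab : ∀ j, |δ j| ≤ 1) {f : (J → Bool) → ℝ} {g : (J → Bool) → ℝ}
    (h : ∀ c, |f c| ≤ g c) : |mext δ f| ≤ mext δ g :=
  (pm_abs_le _ (fun j b => mext_weight_nonneg (hab j) b) _).trans (mext_mono hab h)

theorem abs_fh_mean_le (f : (J → Bool) → Bool) {g : (J → Bool) → ℝ} (hg : ∀ k, |g k| ≤ 1) :
    |∑ k, fh f k ^ 2 * g k| ≤ 1 := by
  refine (abs_sum_le_sum_abs _ _).trans ?_
  rw [← sum_fh_sq f]
  refine sum_le_sum fun k _ => ?_
  rw [abs_mul, abs_of_nonneg (sq_nonneg _)]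
  have := mul_le_mul_of_nonneg_left (hg k) (sq_nonneg (fh f k))
  linarith

open Classical in
/-- the decoded header is wrong with small probability -/
theorem header_error {cl : H → S} {l : ℕ} (hl : ∀ i, l ≤ (univ.filter fun j => cl j = i).card)
    {kap : S → Bool} {hd : H → Bool} (hhd : ∀ i, hd i = kap (cl i)) {α : H → ℝ} {th : ℝ}
    (h0 : 0 ≤ th) (h1 : ∀ i, th ≤ α i) (h2 : ∀ i, α i ≤ 1) (hth : th ≤ 1) :
    mext (fun i => sg (hd i) * α i) (fun hh => if dec cl hh = kap then 0 else 1) ≤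
      Fintype.card S * (1 - th ^ 2 / 4) ^ l := by
  have hab : ∀ i, |sg (hd i) * α i| ≤ 1 := fun i => by
    rw [abs_mul, Pool.Agent.Helper67.EQP.abs_sg, one_mul]
    exact abs_le.2 ⟨by linarith [h1 i], h2 i⟩
  have hq0 : 0 ≤ 1 - th ^ 2 / 4 := by nlinarith
  have hq1 : 1 - th ^ 2 / 4 ≤ 1 := by nlinarith [sq_nonneg th]
  have h3 : ∀ hh : H → Bool, (if dec cl hh = kap then (0 : ℝ) else 1) ≤
      ∑ s, if 0 < ∑ i ∈ univ.filter (fun i => cl i = s), sg (hh i) * sg (hd i) then 0 else 1 := by
    intro hh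
    have hnn : ∀ s ∈ (univ : Finset S), (0 : ℝ) ≤
        if 0 < ∑ i ∈ univ.filter (fun i => cl i = s), sg (hh i) * sg (hd i) then 0 else 1 := by
      intro s _
      split_ifs <;> norm_num
    split_ifs with h
    · exact sum_nonneg hnn
    · have h4 : ∃ s, dec cl hh s ≠ kap s := by
        by_contra hc
        push Not at hc
        exact h (funext hc)
      obtain ⟨s, hs⟩ := h4
      refine le_trans ?_ (single_le_sum hnn (mem_univ s))
      rw [if_neg]
      intro hpos
      apply hs
      have h5 : ∑ i ∈ univ.filter (fun i => cl i = s), sg (hh i) * sg (hd i) =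
          sg (kap s) * ∑ i ∈ univ.filter (fun i => cl i = s), sg (hh i) := by
        rw [mul_sum]
        refine sum_congr rfl fun i hi => ?_
        rw [hhd i, (mem_filter.1 hi).2]
        ring
      rw [h5, sum_sg_eq, filter_filter, filter_filter] at hpos
      unfold dec
      cases hk : kap s
      · rw [hk, Pool.Agent.Helper67.EQP.sg_false, one_mul, sub_pos] at hpos
        have h6 : (univ.filter fun i => cl i = s ∧ hh i = true).card <
            (univ.filter fun i => cl i = s ∧ hh i = false).card := by exact_mod_cast hpos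
        rw [decide_eq_false_iff_not]
        omega
      · rw [hk, Pool.Agent.Helper67.EQP.sg_true] at hpos
        have h6 : ((univ.filter fun i => cl i = s ∧ hh i = false).card : ℝ) <
            (univ.filter fun i => cl i = s ∧ hh i = true).card := by linarith
        rw [decide_eq_true_eq]
        exact_mod_cast h6
  refine (mext_mono hab h3).trans ?_
  rw [mext_sum]
  have h4 : ∀ s ∈ (univ : Finset S), mext (fun i => sg (hd i) * α i) (fun hh =>
      if 0 < ∑ i ∈ univ.filter (fun i => cl i = s), sg (hh i) * sg (hd i) then (0 : ℝ) else 1) ≤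
      (1 - th ^ 2 / 4) ^ l := by
    intro s _
    refine (hoeff_on (θ := fun i b => (1 + sg b * (sg (hd i) * α i)) / 2)
      (V := fun i b => sg b * sg (hd i))
      (fun i b => mext_weight_nonneg (hab i) b) (fun i => sum_bool_mean _)
      (univ.filter fun i => cl i = s) (fun i _ b => ?_)
      h0 hth (fun i _ => ?_)).trans (pow_le_pow_of_le_one hq0 hq1 (hl s))
    · rw [abs_mul, Pool.Agent.Helper67.EQP.abs_sg, Pool.Agent.Helper67.EQP.abs_sg, one_mul]
    · rw [Fintype.sum_bool]
      have h5 := Pool.Agent.Helper67.EQP.sg_mul_self (hd i)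
      simp only [Pool.Agent.Helper67.EQP.sg_true, Pool.Agent.Helper67.EQP.sg_false]
      have h6 : (1 + -1 * (sg (hd i) * α i)) / 2 * (-1 * sg (hd i)) +
          (1 + 1 * (sg (hd i) * α i)) / 2 * (1 * sg (hd i)) = α i * (sg (hd i) * sg (hd i)) := by
        ring
      rw [h6, h5, mul_one]
      exact h1 i
  refine (sum_le_sum h4).trans ?_
  rw [sum_const, card_univ, nsmul_eq_mul]

/-- the branch without a query: the decoded outcome is 0 unless a majority is wrong -/
theorem zero_mean {cl : J → T} {l : ℕ} (hl : ∀ i, l ≤ (univ.filter fun j => cl j = i).card)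
    {δ : J → ℝ} {th : ℝ} (h0 : 0 ≤ th) (h1 : ∀ j, th ≤ δ j) (h2 : ∀ j, δ j ≤ 1) (hth : th ≤ 1)
    {g : (T → Bool) → ℝ} (hg : ∀ k, |g k| ≤ 1) (hg0 : g (fun _ => false) = 0) :
    |mext δ (fun c => g (dec cl c))| ≤ Fintype.card T * (1 - th ^ 2 / 4) ^ l := by
  classical
  have hab : ∀ j, |δ j| ≤ 1 := fun j => abs_le.2 ⟨by linarith [h1 j], h2 j⟩
  refine (mext_abs_le hab fun c => ?_).trans (dec_error hl h0 h1 h2 hth)
  split_ifs with h
  · have h3 := dec_rep h (fun _ => false)
    have h4 : (fun j => xor (rep cl (fun _ => false) j) (c j)) = c := by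
      funext j
      simp [rep]
    rw [h4] at h3
    rw [h3, hg0, abs_zero]
  · exact hg _

/-- **the mean of one run** -/
theorem abs_mean {clH : H → S} {clB : J → T} (hclB : Function.Surjective clB) {l : ℕ}
    (hlH : ∀ i, l ≤ (univ.filter fun j => clH j = i).card)
    (hlB : ∀ i, l ≤ (univ.filter fun j => clB j = i).card)
    {kap : S → Bool} {hd : H → Bool} (hhd : ∀ i, hd i = kap (clH i)) {α : H → ℝ} {δ : J → ℝ}
    {th : ℝ} (h0 : 0 ≤ th) (hth : th ≤ 1) (hα1 : ∀ i, th ≤ α i) (hα2 : ∀ i, α i ≤ 1)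
    (hδ1 : ∀ j, th ≤ δ j) (hδ2 : ∀ j, δ j ≤ 1) {ffn : (H → Bool) → (J → Bool) → Bool}
    {F : (T → Bool) → Bool} (hff : ∀ hh, dec clH hh = kap → ffn hh = fun x => F (par clB x))
    {q : ℝ} (hq0 : 0 ≤ q) (hq1 : q ≤ 1) {g : (T → Bool) → ℝ} (hg : ∀ k, |g k| ≤ 1)
    (hg0 : g (fun _ => false) = 0) :
    |mext (fun i => sg (hd i) * α i) (fun hh => q * mext δ (fun c =>
        ∑ k, fh (ffn hh) k ^ 2 * g (dec clB (fun j => xor (k j) (c j)))) +
        (1 - q) * mext δ (fun c => g (dec clB c))) - q * ∑ k, fh F k ^ 2 * g k| ≤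
      2 * ((Fintype.card S + Fintype.card T) * (1 - th ^ 2 / 4) ^ l) := by
  classical
  set P : ℝ := (1 - th ^ 2 / 4) ^ l with hP
  have hP0 : 0 ≤ P := pow_nonneg (by nlinarith) l
  have hT0 : 0 ≤ Fintype.card T * P := mul_nonneg (Nat.cast_nonneg _) hP0
  have hab : ∀ i, |sg (hd i) * α i| ≤ 1 := fun i => by
    rw [abs_mul, Pool.Agent.Helper67.EQP.abs_sg, one_mul]
    exact abs_le.2 ⟨by linarith [hα1 i], hα2 i⟩
  have habδ : ∀ j, |δ j| ≤ 1 := fun j => abs_le.2 ⟨by linarith [hδ1 j], hδ2 j⟩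
  have hV0 := zero_mean hlB h0 hδ1 hδ2 hth hg hg0
  have hV0' : |mext δ (fun c => g (dec clB c))| ≤ 1 := by
    refine (mext_abs_le habδ (g := fun _ => 1) fun c => hg _).trans ?_
    rw [mext_const]
  have hf1 : |∑ k, fh F k ^ 2 * g k| ≤ 1 := abs_fh_mean_le F hg
  rw [← mext_const (fun i => sg (hd i) * α i) (q * ∑ k, fh F k ^ 2 * g k), ← mext_sub]
  have key : ∀ hh : H → Bool,
      |q * mext δ (fun c => ∑ k, fh (ffn hh) k ^ 2 * g (dec clB (fun j => xor (k j) (c j)))) +
        (1 - q) * mext δ (fun c => g (dec clB c)) - q * ∑ k, fh F k ^ 2 * g k| ≤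
      2 * (Fintype.card T * P) + 2 * (if dec clH hh = kap then 0 else 1) := by
    intro hh
    split_ifs with h
    · rw [hff hh h]
      have h3 : ∀ c : J → Bool, ∑ k, fh (fun x => F (par clB x)) k ^ 2 *
          g (dec clB (fun j => xor (k j) (c j))) =
          ∑ k, fh F k ^ 2 * g (dec clB (fun j => xor (rep clB k j) (c j))) := fun c =>
        sum_fh_par hclB F (fun y => g (dec clB (fun j => xor (y j) (c j))))
      simp_rw [h3]
      have h4 := round_mean hclB F hlB h0 hδ1 hδ2 hth g hg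
      rw [round_eq hclB F δ g] at h4
      have h5 : |q * mext δ (fun c => ∑ k, fh F k ^ 2 *
          g (dec clB (fun j => xor (rep clB k j) (c j)))) +
          (1 - q) * mext δ (fun c => g (dec clB c)) - q * ∑ k, fh F k ^ 2 * g k| ≤
          q * (2 * (Fintype.card T * P)) + (1 - q) * (Fintype.card T * P) := by
        have e1 : q * mext δ (fun c => ∑ k, fh F k ^ 2 *
          g (dec clB (fun j => xor (rep clB k j) (c j)))) +
          (1 - q) * mext δ (fun c => g (dec clB c)) - q * ∑ k, fh F k ^ 2 * g k =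
          q * (mext δ (fun c => ∑ k, fh F k ^ 2 *
          g (dec clB (fun j => xor (rep clB k j) (c j)))) - ∑ k, fh F k ^ 2 * g k) +
          (1 - q) * mext δ (fun c => g (dec clB c)) := by ring
        rw [e1]
        refine (abs_add_le _ _).trans (add_le_add ?_ ?_)
        · rw [abs_mul, abs_of_nonneg hq0]
          exact mul_le_mul_of_nonneg_left h4 hq0
        · rw [abs_mul, abs_of_nonneg (by linarith : 0 ≤ 1 - q)]
          exact mul_le_mul_of_nonneg_left hV0 (by linarith)
      refine h5.trans ?_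
      nlinarith
    · have h3 : |mext δ (fun c => ∑ k, fh (ffn hh) k ^ 2 *
          g (dec clB (fun j => xor (k j) (c j))))| ≤ 1 := by
        refine (mext_abs_le habδ (g := fun _ => 1) fun c =>
          abs_fh_mean_le (ffn hh) fun k => hg _).trans ?_
        rw [mext_const]
      have h4 := abs_le.1 h3
      have h5 := abs_le.1 hV0'
      have h6 := abs_le.1 hf1
      rw [mul_one, abs_le]
      constructor
      · nlinarith [mul_nonneg hq0 (by linarith [h4.1] : 0 ≤ mext δ (fun c => ∑ k,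
          fh (ffn hh) k ^ 2 * g (dec clB (fun j => xor (k j) (c j)))) + 1),
          mul_nonneg (by linarith : 0 ≤ 1 - q) (by linarith [h5.1] :
          0 ≤ mext δ (fun c => g (dec clB c)) + 1),
          mul_nonneg hq0 (by linarith [h6.2] : 0 ≤ 1 - ∑ k, fh F k ^ 2 * g k)]
      · nlinarith [mul_nonneg hq0 (by linarith [h4.2] : 0 ≤ 1 - mext δ (fun c => ∑ k,
          fh (ffn hh) k ^ 2 * g (dec clB (fun j => xor (k j) (c j))))),
          mul_nonneg (by linarith : 0 ≤ 1 - q) (by linarith [h5.2] :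
          0 ≤ 1 - mext δ (fun c => g (dec clB c))),
          mul_nonneg hq0 (by linarith [h6.1] : 0 ≤ 1 + ∑ k, fh F k ^ 2 * g k)]
  refine (mext_abs_le hab key).trans ?_
  rw [mext_add, mext_const, mext_mul_left]
  have h7 := header_error hlH hhd h0 hα1 hα2 hth
  linarith

end Pool.Agent.Helper65.NQ
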