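import Pool.Agent.Helper65.NQ.Rep

/-!
# NQ: the reference beam

Fourier sampling of one function of `d + 1` bits, made of `u` and of a self-dual bent function, computes forrelation.
-/

set_option autoImplicit false

namespace Pool.Agent.Helper65.NQ

open Finset
open Pool.Agent.Helper67.EQP (sg sum_prod_eq had spin)

/-- the pairs `2i, 2i+1` of indices -/
def pairs (m : ℕ) : Fin (m + 2) × Fin 2 ≃ Fin (2 * m + 4) :=
  finProdFinEquiv.trans (finCongr (by ring))

/-- the bent function `x_0 x_1 + x_2 x_3 + ...` -/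
def quad {m : ℕ} (x : Fin (2 * m + 4) → Bool) : Bool :=
  decide (Odd (univ.filter fun i => x (pairs m (i, 0)) = true ∧ x (pairs m (i, 1)) = true).card)

theorem sg_quad {m : ℕ} (x : Fin (2 * m + 4) → Bool) :
    sg (quad x) = ∏ i, if x (pairs m (i, 0)) && x (pairs m (i, 1)) then (-1 : ℝ) else 1 := by
  have h1 : (∏ i, if x (pairs m (i, 0)) && x (pairs m (i, 1)) then (-1 : ℝ) else 1) =
      (-1) ^ (univ.filter fun i => x (pairs m (i, 0)) = true ∧ x (pairs m (i, 1)) = true).card := by
    rw [prod_ite, prod_const, prod_const_one, mul_one]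
    congr 2
    ext i
    simp
  rw [h1]
  unfold quad
  rcases Nat.even_or_odd
    (univ.filter fun i => x (pairs m (i, 0)) = true ∧ x (pairs m (i, 1)) = true).card with h | h
  · rw [h.neg_one_pow, decide_eq_false (by simpa using h)]
    rfl
  · rw [h.neg_one_pow, decide_eq_true h]
    rfl

/-- the bent function is self-dual -/
theorem sum_chi_quad {m : ℕ} (y : Fin (2 * m + 4) → Bool) :
    ∑ x, chi x y * sg (quad x) = 2 ^ (m + 2) * sg (quad y) := by
  let E : (Fin (2 * m + 4) → Bool) ≃ (Fin (m + 2) → Fin 2 → Bool) :=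
    ((pairs m).symm.arrowCongr (Equiv.refl Bool)).trans (Equiv.curry _ _ _)
  have hE : ∀ x i b, E x i b = x (pairs m (i, b)) := fun x i b => rfl
  have h1 : ∀ x, chi x y * sg (quad x) =
      ∏ i, (((if E x i 0 && y (pairs m (i, 0)) then (-1 : ℝ) else 1) *
        (if E x i 1 && y (pairs m (i, 1)) then -1 else 1)) *
        (if E x i 0 && E x i 1 then -1 else 1)) := by
    intro x
    rw [prod_mul_distrib, sg_quad]
    congr 1
    unfold chi
    rw [← (pairs m).prod_comp, Fintype.prod_prod_type]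
    refine prod_congr rfl fun i _ => ?_
    rw [Fin.prod_univ_two]
    rfl
  simp_rw [h1]
  rw [E.sum_comp (fun x' : Fin (m + 2) → Fin 2 → Bool =>
    ∏ i, (((if x' i 0 && y (pairs m (i, 0)) then (-1 : ℝ) else 1) *
        (if x' i 1 && y (pairs m (i, 1)) then -1 else 1)) *
        (if x' i 0 && x' i 1 then -1 else 1)))]
  rw [sum_prod_eq (fun i (w : Fin 2 → Bool) =>
    (((if w 0 && y (pairs m (i, 0)) then (-1 : ℝ) else 1) *
        (if w 1 && y (pairs m (i, 1)) then -1 else 1)) * (if w 0 && w 1 then -1 else 1)))]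
  have h2 : ∀ i : Fin (m + 2), (∑ w : Fin 2 → Bool,
      (((if w 0 && y (pairs m (i, 0)) then (-1 : ℝ) else 1) *
        (if w 1 && y (pairs m (i, 1)) then -1 else 1)) * (if w 0 && w 1 then -1 else 1))) =
      2 * if y (pairs m (i, 0)) && y (pairs m (i, 1)) then (-1 : ℝ) else 1 := by
    intro i
    have h3 := (finTwoArrowEquiv Bool).sum_comp (fun p : Bool × Bool =>
      (((if p.1 && y (pairs m (i, 0)) then (-1 : ℝ) else 1) *
        (if p.2 && y (pairs m (i, 1)) then -1 else 1)) * (if p.1 && p.2 then -1 else 1)))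
    refine h3.trans ?_
    rw [Fintype.sum_prod_type, Fintype.sum_bool, Fintype.sum_bool, Fintype.sum_bool]
    cases y (pairs m (i, 0)) <;> cases y (pairs m (i, 1)) <;> norm_num
  simp_rw [h2]
  rw [prod_mul_distrib, prod_const, card_univ, Fintype.card_fin, sg_quad]

theorem fh_quad {m : ℕ} (y : Fin (2 * m + 4) → Bool) :
    fh (quad (m := m)) y = sg (quad y) / 2 ^ (m + 2) := by
  unfold fh
  rw [sum_chi_quad, Fintype.card_fin]
  have h1 : (2 : ℝ) ^ (2 * m + 4) = 2 ^ (m + 2) * 2 ^ (m + 2) := by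
    rw [← pow_add]
    congr 1
    ring
  rw [h1]
  field_simp

variable {d : ℕ}

/-- the function `u` on one half, the reference `h` on the other half of the cube -/
def beam (u h : (Fin d → Bool) → Bool) (z : Fin (d + 1) → Bool) : Bool :=
  if z (Fin.last d) then h (Fin.init z) else u (Fin.init z)

theorem sum_snoc (G : (Fin (d + 1) → Bool) → ℝ) :
    ∑ z, G z = ∑ k : Fin d → Bool, (G (Fin.snoc k true) + G (Fin.snoc k false)) := by
  rw [← (Fin.snocEquiv fun _ : Fin (d + 1) => Bool).sum_comp, Fintype.sum_prod_type_right]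
  refine sum_congr rfl fun k _ => ?_
  rw [Fintype.sum_bool]
  rfl

theorem chi_snoc (x y : Fin d → Bool) (b c : Bool) :
    chi (Fin.snoc x b : Fin (d + 1) → Bool) (Fin.snoc y c) =
      chi x y * if b && c then -1 else 1 := by
  unfold chi
  rw [Fin.prod_univ_castSucc]
  simp

theorem fh_beam (u h : (Fin d → Bool) → Bool) (k : Fin d → Bool) (c : Bool) :
    fh (beam u h) (Fin.snoc k c) = (fh u k + sg c * fh h k) / 2 := by
  unfold fh
  rw [sum_snoc]
  simp only [chi_snoc, beam, Fin.snoc_last, Fin.init_snoc, if_true, Fintype.card_fin]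
  have h1 : ∀ x : Fin d → Bool,
      chi x k * (if true && c then (-1 : ℝ) else 1) * sg (h x) +
        chi x k * (if false && c then (-1 : ℝ) else 1) * sg (if false = true then h x else u x) =
      chi x k * sg (u x) + sg c * (chi x k * sg (h x)) := by
    intro x
    cases c <;> simp <;> ring
  rw [sum_congr rfl fun x _ => h1 x, sum_add_distrib, ← mul_sum, pow_succ]
  field_simp

/-- **the interference term** -/
theorem sum_beam (u h : (Fin d → Bool) → Bool) (G : (Fin d → Bool) → ℝ) :
    ∑ z, fh (beam u h) z ^ 2 * (sg (z (Fin.last d)) * G (Fin.init z)) =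
      ∑ k, fh u k * fh h k * G k := by
  rw [sum_snoc]
  refine sum_congr rfl fun k _ => ?_
  rw [fh_beam, fh_beam, Fin.snoc_last, Fin.snoc_last, Fin.init_snoc, Fin.init_snoc]
  simp only [Pool.Agent.Helper67.EQP.sg_true, Pool.Agent.Helper67.EQP.sg_false]
  ring

/-- **Fourier sampling of the beam computes forrelation** -/
theorem sum_beam_quad {m : ℕ} (u v : (Fin (2 * m + 4) → Bool) → Bool) :
    ∑ z, fh (beam u (quad (m := m))) z ^ 2 *
      (sg (z (Fin.last _)) * (sg (quad (Fin.init z)) * sg (v (Fin.init z)))) =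
      (∑ i, ∑ k, (had i k : ℝ) * sg (u i) * sg (v k)) / 8 ^ (m + 2) := by
  rw [sum_beam u quad (fun k => sg (quad k) * sg (v k)), sum_comm, sum_div]
  refine sum_congr rfl fun k _ => ?_
  rw [fh_quad]
  unfold fh
  have h1 : ∑ i, (had i k : ℝ) * sg (u i) * sg (v k) = (∑ i, chi i k * sg (u i)) * sg (v k) := by
    rw [sum_mul]
    refine sum_congr rfl fun i _ => ?_
    rw [chi_had]
  rw [h1, Fintype.card_fin]
  have h2 : (8 : ℝ) ^ (m + 2) = 2 ^ (2 * m + 4) * 2 ^ (m + 2) := by
    rw [show (8 : ℝ) = 2 ^ 3 by norm_num, ← pow_mul, ← pow_add]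
    congr 1
    ring
  have h3 := Pool.Agent.Helper67.EQP.sg_mul_self (quad k)
  rw [h2]
  field_simp
  linear_combination (∑ i, chi i k * sg (u i)) * sg (v k) * h3

end Pool.Agent.Helper65.NQ
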