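import Pool.Agent.Helper65.NQ.Round
import Pool.Agent.Helper67.EQP.Defs

/-!
# NQ: the flag bit
-/

set_option autoImplicit false

namespace Pool.Agent.Helper65.NQ

open Finset
open Pool.Agent.Helper67.EQP (sg had spin)

theorem sg_spin (b : Bool) : sg b = ((spin b : ℤ) : ℝ) := by
  cases b <;> simp [spin]

/-- xor with a flag bit -/
def flag {d : ℕ} (f : (Fin d → Bool) → Bool) (y : Fin (d + 1) → Bool) : Bool :=
  xor (f (Fin.init y)) (y (Fin.last d))

theorem fh_flag {d : ℕ} (f : (Fin d → Bool) → Bool) (k : Fin d → Bool) (c : Bool) :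
    fh (flag f) (Fin.snoc k c) = if c then fh f k else 0 := by
  unfold fh
  rw [sum_snoc]
  simp only [chi_snoc, flag, Fin.snoc_last, Fin.init_snoc, Fintype.card_fin]
  cases c
  · have h0 : ∀ x : Fin d → Bool,
        chi x k * (if true && false then (-1 : ℝ) else 1) * sg (xor (f x) true) +
          chi x k * (if false && false then (-1 : ℝ) else 1) * sg (xor (f x) false) = 0 := by
      intro x
      cases f x <;> simp
    rw [sum_congr rfl fun x _ => h0 x, sum_const_zero, zero_div]
    rfl
  · rw [if_pos rfl]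
    have h1 : ∀ x : Fin d → Bool,
        chi x k * (if true && true then (-1 : ℝ) else 1) * sg (xor (f x) true) +
          chi x k * (if false && true then (-1 : ℝ) else 1) * sg (xor (f x) false) =
        2 * (chi x k * sg (f x)) := by
      intro x
      cases f x <;> simp <;> ring
    rw [sum_congr rfl fun x _ => h1 x, ← mul_sum, pow_succ]
    field_simp

/-- Fourier sampling with a flag bit -/
theorem sum_flag {d : ℕ} (f : (Fin d → Bool) → Bool) (G : (Fin (d + 1) → Bool) → ℝ) :
    ∑ y, fh (flag f) y ^ 2 * G y = ∑ z, fh f z ^ 2 * G (Fin.snoc z true) := by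
  rw [sum_snoc]
  refine sum_congr rfl fun z _ => ?_
  rw [fh_flag, fh_flag]
  simp

/-- the value of a round: 0 if the flag is 0, otherwise the sign of `c xor A(x)`, where `A(x) = v(x) xor quad(x)` -/
noncomputable def gval {m : ℕ} (v : (Fin (2 * m + 4) → Bool) → Bool)
    (y : Fin (2 * m + 5 + 1) → Bool) : ℝ :=
  if y (Fin.last _) then sg (xor (Fin.init y (Fin.last _))
    (xor (v (Fin.init (Fin.init y))) (quad (Fin.init (Fin.init y))))) else 0

theorem sg_xor (a b : Bool) : sg (xor a b) = sg a * sg b := by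
  cases a <;> cases b <;> simp

theorem abs_gval_le {m : ℕ} (v : (Fin (2 * m + 4) → Bool) → Bool)
    (y : Fin (2 * m + 5 + 1) → Bool) : |gval v y| ≤ 1 := by
  unfold gval
  split_ifs
  · exact (Pool.Agent.Helper67.EQP.abs_sg _).le
  · rw [abs_zero]
    exact zero_le_one

/-- **one query, Fourier sampling, one classical query: exactly forrelation** -/
theorem sum_gval {m : ℕ} (u v : (Fin (2 * m + 4) → Bool) → Bool) :
    ∑ y, fh (flag (beam u (quad (m := m)))) y ^ 2 * gval v y =
      ((∑ i, ∑ k, had i k * spin (u i) * spin (v k) : ℤ) : ℝ) / 8 ^ (m + 2) := by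
  rw [sum_flag]
  have h1 := sum_beam_quad u v
  have h2 : ∀ z : Fin (2 * m + 5) → Bool, fh (beam u (quad (m := m))) z ^ 2 *
      gval v (Fin.snoc z true) = fh (beam u (quad (m := m))) z ^ 2 *
      (sg (z (Fin.last _)) * (sg (quad (Fin.init z)) * sg (v (Fin.init z)))) := by
    intro z
    unfold gval
    rw [Fin.snoc_last, if_pos rfl, Fin.init_snoc, sg_xor, sg_xor]
    ring
  rw [sum_congr rfl fun z _ => h2 z, h1]
  push_cast
  simp_rw [sg_spin]

end Pool.Agent.Helper65.NQ
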