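import Pool.Agent.Helper67.EQP.PM
import Pool.Agent.Helper67.EQP.Defs

/-!
# NQ: Fourier transform on `{0,1}^J`
-/

set_option autoImplicit false

namespace Pool.Agent.Helper65.NQ

open Finset
open Pool.Agent.Helper67.EQP (sum_prod_eq sg had)

variable {J : Type} [Fintype J]

/-- the characters of `{0,1}^J`: `(-1)^⟨x,y⟩` -/
noncomputable def chi (x y : J → Bool) : ℝ := ∏ j, if x j && y j then -1 else 1

theorem chi_had {n : ℕ} (x y : Fin n → Bool) : chi x y = ((had x y : ℤ) : ℝ) := by
  unfold chi had
  rw [Int.cast_prod]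
  refine prod_congr rfl fun j _ => ?_
  split_ifs <;> simp

theorem chi_comm (x y : J → Bool) : chi x y = chi y x := by
  unfold chi
  refine prod_congr rfl fun j _ => ?_
  rw [Bool.and_comm]

theorem chi_mul_self (x y : J → Bool) : chi x y * chi x y = 1 := by
  unfold chi
  rw [← prod_mul_distrib]
  refine prod_eq_one fun j _ => ?_
  split_ifs <;> norm_num

theorem abs_chi (x y : J → Bool) : |chi x y| = 1 := by
  have h := chi_mul_self x y
  have h1 : |chi x y| * |chi x y| = 1 := by rw [← abs_mul, h, abs_one]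
  nlinarith [abs_nonneg (chi x y)]

theorem chi_xor (x y z : J → Bool) : chi (fun j => xor (x j) (y j)) z = chi x z * chi y z := by
  unfold chi
  rw [← prod_mul_distrib]
  refine prod_congr rfl fun j _ => ?_
  have key : ∀ a b c : Bool, (if (xor a b) && c then (-1 : ℝ) else 1) =
      (if a && c then -1 else 1) * (if b && c then -1 else 1) := by
    intro a b c
    cases a <;> cases b <;> cases c <;> norm_num
  exact key _ _ _

variable [DecidableEq J]

/-- orthogonality of the characters -/
theorem sum_chi_mul (x x' : J → Bool) :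
    ∑ y, chi x y * chi x' y = if x = x' then 2 ^ Fintype.card J else 0 := by
  unfold chi
  simp_rw [← prod_mul_distrib]
  rw [sum_prod_eq (fun j b => (if x j && b then (-1 : ℝ) else 1) * (if x' j && b then -1 else 1))]
  have h1 : ∀ j, (∑ b : Bool, (if x j && b then (-1 : ℝ) else 1) * (if x' j && b then -1 else 1)) =
      if x j = x' j then 2 else 0 := by
    intro j
    rw [Fintype.sum_bool]
    cases x j <;> cases x' j <;> norm_num
  simp_rw [h1]
  split_ifs with h
  · subst h
    simp
  · have : ∃ j, x j ≠ x' j := by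
      by_contra hc
      push Not at hc
      exact h (funext hc)
    obtain ⟨j, hj⟩ := this
    exact prod_eq_zero (mem_univ j) (if_neg hj)

/-- Fourier coefficients of `(-1)^f` -/
noncomputable def fh (f : (J → Bool) → Bool) (y : J → Bool) : ℝ :=
  (∑ x, chi x y * sg (f x)) / 2 ^ Fintype.card J

/-- inversion -/
theorem fh_inv (f : (J → Bool) → Bool) (x : J → Bool) :
    sg (f x) = ∑ y, fh f y * chi x y := by
  have h1 : ∀ y, fh f y * chi x y =
      (∑ x', chi x' y * chi x y * sg (f x')) / 2 ^ Fintype.card J := by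
    intro y
    unfold fh
    rw [div_mul_eq_mul_div, sum_mul]
    congr 1
    refine sum_congr rfl fun x' _ => ?_
    ring
  simp_rw [h1]
  rw [← sum_div, sum_comm]
  simp_rw [← sum_mul, sum_chi_mul]
  rw [sum_eq_single x]
  · rw [if_pos rfl]
    field_simp
  · intro x' _ hx'
    rw [if_neg hx', zero_mul]
  · intro h
    exact absurd (mem_univ _) h

/-- Parseval -/
theorem sum_fh_sq (f : (J → Bool) → Bool) : ∑ y, fh f y ^ 2 = 1 := by
  have h1 : ∀ y, fh f y ^ 2 = (∑ x, fh f y * chi x y * sg (f x)) / 2 ^ Fintype.card J := by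
    intro y
    rw [sq]
    nth_rw 2 [fh]
    rw [mul_div_assoc', mul_sum]
    congr 1
    refine sum_congr rfl fun x _ => ?_
    ring
  simp_rw [h1]
  rw [← sum_div, sum_comm]
  simp_rw [← sum_mul, ← fh_inv, Pool.Agent.Helper67.EQP.sg_mul_self]
  rw [sum_const, card_univ, Fintype.card_fun, Fintype.card_bool, nsmul_eq_mul, mul_one]
  push_cast
  exact div_self (by positivity)

theorem fh_abs_le (f : (J → Bool) → Bool) (y : J → Bool) : |fh f y| ≤ 1 := by
  unfold fh
  rw [abs_div, abs_of_pos (by positivity : (0 : ℝ) < 2 ^ Fintype.card J),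
    div_le_one (by positivity)]
  refine (abs_sum_le_sum_abs _ _).trans ?_
  have h1 : ∀ x : J → Bool, |chi x y * sg (f x)| = 1 := by
    intro x
    rw [abs_mul, abs_chi, Pool.Agent.Helper67.EQP.abs_sg, one_mul]
  simp_rw [h1]
  rw [sum_const, card_univ, Fintype.card_fun, Fintype.card_bool, nsmul_eq_mul, mul_one]
  push_cast
  exact le_rfl

end Pool.Agent.Helper65.NQ
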