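import Pool.Agent.Helper67.EQP.PM

/-!
# NQ: an exponential bound for sums of independent bounded variables
-/

set_option autoImplicit false

namespace Pool.Agent.Helper65.NQ

open Finset
open Pool.Agent.Helper67.EQP (pm pm_prod_fun pm_mono sg mext)

variable {ι A : Type} [Fintype ι] [DecidableEq ι] [Fintype A]

theorem exp_neg_le {y : ℝ} (h : |y| ≤ 1) : Real.exp (-y) ≤ 1 - y + y ^ 2 := by
  have h1 := Real.abs_exp_sub_one_sub_id_le (x := -y) (by rwa [abs_neg])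
  have h2 := (abs_le.1 h1).2
  rw [neg_sq] at h2
  linarith

/-- one factor -/
theorem factor_le {θ V : A → ℝ} (h0 : ∀ b, 0 ≤ θ b) (h1 : ∑ b, θ b = 1) (hV : ∀ b, |V b| ≤ 1)
    {δ : ℝ} (hδ0 : 0 ≤ δ) (hδ1 : δ ≤ 1) (hm : δ ≤ ∑ b, θ b * V b) :
    ∑ b, θ b * Real.exp (-(δ / 2 * V b)) ≤ 1 - δ ^ 2 / 4 := by
  have h2 : ∀ b, θ b * Real.exp (-(δ / 2 * V b)) ≤
      θ b - δ / 2 * (θ b * V b) + (δ / 2) ^ 2 * θ b := by
    intro b
    have h3 : |δ / 2 * V b| ≤ 1 := by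
      rw [abs_mul, abs_of_nonneg (by linarith : (0 : ℝ) ≤ δ / 2)]
      have := mul_le_mul (by linarith : δ / 2 ≤ 1) (hV b) (abs_nonneg _) zero_le_one
      linarith
    have h4 := mul_le_mul_of_nonneg_left (exp_neg_le h3) (h0 b)
    have h5 : V b ^ 2 ≤ 1 := by
      rw [← sq_abs]
      exact pow_le_one₀ (abs_nonneg _) (hV b)
    have h6 : θ b * (δ / 2 * V b) ^ 2 ≤ (δ / 2) ^ 2 * θ b := by
      rw [mul_pow]
      have := mul_le_mul_of_nonneg_left h5 (mul_nonneg (h0 b) (sq_nonneg (δ / 2)))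
      linarith
    calc θ b * Real.exp (-(δ / 2 * V b)) ≤ θ b * (1 - δ / 2 * V b + (δ / 2 * V b) ^ 2) := h4
      _ = θ b - δ / 2 * (θ b * V b) + θ b * (δ / 2 * V b) ^ 2 := by ring
      _ ≤ _ := by linarith
  calc ∑ b, θ b * Real.exp (-(δ / 2 * V b)) ≤
      ∑ b, (θ b - δ / 2 * (θ b * V b) + (δ / 2) ^ 2 * θ b) := sum_le_sum fun b _ => h2 b
    _ = ∑ b, θ b - δ / 2 * ∑ b, θ b * V b + (δ / 2) ^ 2 * ∑ b, θ b := by
        rw [sum_add_distrib, sum_sub_distrib, mul_sum, mul_sum]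
    _ ≤ 1 - δ ^ 2 / 4 := by
        rw [h1]
        nlinarith [mul_le_mul_of_nonneg_left hm (by linarith : (0 : ℝ) ≤ δ / 2)]

open Classical in
/-- the sum over a set of coordinates of independent variables with values in `[-1,1]` and means at least `δ` is
positive with probability at least `1 - (1 - δ²/4)^k` -/
theorem hoeff_on {θ V : ι → A → ℝ} (h0 : ∀ i b, 0 ≤ θ i b) (h1 : ∀ i, ∑ b, θ i b = 1)
    (S : Finset ι) (hV : ∀ i ∈ S, ∀ b, |V i b| ≤ 1) {δ : ℝ} (hδ0 : 0 ≤ δ) (hδ1 : δ ≤ 1)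
    (hm : ∀ i ∈ S, δ ≤ ∑ b, θ i b * V i b) :
    pm θ (fun a => if 0 < ∑ i ∈ S, V i (a i) then 0 else 1) ≤ (1 - δ ^ 2 / 4) ^ S.card := by
  have h2 : ∀ a : ι → A, (if 0 < ∑ i ∈ S, V i (a i) then (0 : ℝ) else 1) ≤
      ∏ i, if i ∈ S then Real.exp (-(δ / 2 * V i (a i))) else 1 := by
    intro a
    rw [prod_ite_mem, univ_inter, ← Real.exp_sum]
    split_ifs with h
    · exact (Real.exp_pos _).le
    · rw [Real.one_le_exp_iff, sum_neg_distrib, ← mul_sum]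
      push Not at h
      have := mul_nonpos_of_nonneg_of_nonpos (by linarith : (0 : ℝ) ≤ δ / 2) h
      linarith
  refine (pm_mono θ h0 h2).trans ?_
  rw [pm_prod_fun θ (fun i b => if i ∈ S then Real.exp (-(δ / 2 * V i b)) else 1)]
  have h3 : ∏ i : ι, (if i ∈ S then (1 - δ ^ 2 / 4) else 1) = (1 - δ ^ 2 / 4) ^ S.card := by
    rw [prod_ite_mem, univ_inter, prod_const]
  rw [← h3]
  refine prod_le_prod (fun i _ => sum_nonneg fun b _ => ?_) fun i _ => ?_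
  · refine mul_nonneg (h0 i b) ?_
    split_ifs
    · exact (Real.exp_pos _).le
    · exact zero_le_one
  · by_cases hi : i ∈ S
    · simp only [if_pos hi]
      exact factor_le (h0 i) (h1 i) (hV i hi) hδ0 hδ1 (hm i hi)
    · simp only [if_neg hi, mul_one]
      exact (h1 i).le

open Classical in
/-- **the sum of independent variables with values in `[-1,1]` and means at least `δ` is positive with
probability at least `1 - (1 - δ²/4)^k`** -/
theorem hoeff {θ V : ι → A → ℝ} (h0 : ∀ i b, 0 ≤ θ i b) (h1 : ∀ i, ∑ b, θ i b = 1)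
    (hV : ∀ i b, |V i b| ≤ 1) {δ : ℝ} (hδ0 : 0 ≤ δ) (hδ1 : δ ≤ 1)
    (hm : ∀ i, δ ≤ ∑ b, θ i b * V i b) :
    pm θ (fun a => if 0 < ∑ i, V i (a i) then 0 else 1) ≤ (1 - δ ^ 2 / 4) ^ Fintype.card ι := by
  have := hoeff_on h0 h1 univ (fun i _ => hV i) hδ0 hδ1 (fun i _ => hm i)
  rwa [card_univ] at this

end Pool.Agent.Helper65.NQ
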