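import Pool.Agent.Helper65.NQ.Flag
import Pool.Agent.Helper73.NQ.Orc

/-!
# NQ: the bent function of `Helper73/NQ`
-/

set_option autoImplicit false

namespace Pool.Agent.Helper65.NQ

open Finset

theorem quad73 (m : ℕ) (k : Fin (2 * m + 4) → Bool) : Pool.Agent.Helper73.NQ.quad m k = quad k := by
  unfold Pool.Agent.Helper73.NQ.quad Pool.Agent.Helper73.NQ.parity quad
  have h : (univ.filter fun i : Fin (m + 2) =>
      (k ⟨2 * i, by omega⟩ && k ⟨2 * i + 1, by omega⟩) = true) =
      univ.filter fun i => k (pairs m (i, 0)) = true ∧ k (pairs m (i, 1)) = true := by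
    ext i
    rw [mem_filter, mem_filter, Bool.and_eq_true]
    have h0 : pairs m (i, 0) = ⟨2 * i, by omega⟩ := by
      apply Fin.ext
      simp [pairs]
    have h1 : pairs m (i, 1) = ⟨2 * i + 1, by omega⟩ := by
      apply Fin.ext
      simp [pairs, add_comm]
    rw [h0, h1]
  rw [h]

theorem quad73' (m : ℕ) : Pool.Agent.Helper73.NQ.quad m = quad (m := m) := funext (quad73 m)

end Pool.Agent.Helper65.NQ
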