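import Pool.Agent.Helper65.NQ.Hoeff
import Pool.Agent.Helper65.NQ.Four

/-!
# NQ: parities and majorities of the classes of a partition of the qubits
-/

set_option autoImplicit false

namespace Pool.Agent.Helper65.NQ

open Finset
open Pool.Agent.Helper67.EQP (pm pm_mono pm_sum sg mext mext_mono mext_sum sum_bool_mean
  mext_weight_nonneg)

variable {J T : Type} [Fintype J] [DecidableEq J] [Fintype T] [DecidableEq T]

/-- the parities of the classes of `cl` -/
def par (cl : J → T) (x : J → Bool) (i : T) : Bool :=
  decide (Odd (univ.filter fun j => cl j = i ∧ x j = true).card)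

/-- the word which is constant on the classes -/
def rep (cl : J → T) (k : T → Bool) (j : J) : Bool := k (cl j)

/-- the majorities of the classes -/
def dec (cl : J → T) (y : J → Bool) (i : T) : Bool :=
  decide ((univ.filter fun j => cl j = i ∧ y j = false).card <
    (univ.filter fun j => cl j = i ∧ y j = true).card)

theorem sg_par (cl : J → T) (x : J → Bool) (i : T) :
    sg (par cl x i) = ∏ j ∈ univ.filter (fun j => cl j = i), sg (x j) := by
  have h1 : ∏ j ∈ univ.filter (fun j => cl j = i), sg (x j) =
      (-1) ^ (univ.filter fun j => cl j = i ∧ x j = true).card := by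
    have h2 : ∀ j, sg (x j) = if x j = true then -1 else 1 := fun j => by
      cases x j <;> simp
    simp_rw [h2]
    rw [prod_ite, prod_const, prod_const_one, mul_one, filter_filter]
  rw [h1]
  unfold par
  rcases Nat.even_or_odd (univ.filter fun j => cl j = i ∧ x j = true).card with h | h
  · rw [h.neg_one_pow, decide_eq_false (by simpa using h)]
    rfl
  · rw [h.neg_one_pow, decide_eq_true h]
    rfl

theorem chi_par (cl : J → T) (x : J → Bool) (k : T → Bool) :
    chi (par cl x) k = chi x (rep cl k) := by
  unfold chi rep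
  rw [← prod_fiberwise univ cl]
  refine prod_congr rfl fun i _ => ?_
  cases hk : k i
  · rw [Bool.and_false, if_neg (by simp)]
    symm
    refine prod_eq_one fun j hj => ?_
    rw [mem_filter] at hj
    rw [hj.2, hk, Bool.and_false, if_neg (by simp)]
  · rw [Bool.and_true]
    have h1 : (if par cl x i = true then (-1 : ℝ) else 1) = sg (par cl x i) := by
      cases par cl x i <;> simp
    rw [h1, sg_par]
    refine prod_congr rfl fun j hj => ?_
    rw [mem_filter] at hj
    rw [hj.2, hk, Bool.and_true]
    cases x j <;> simp

theorem rep_injective {cl : J → T} (hcl : Function.Surjective cl) :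
    Function.Injective (rep cl) := by
  intro k k' h
  funext i
  obtain ⟨j, rfl⟩ := hcl i
  exact congrFun h j

theorem fh_par (cl : J → T) (F : (T → Bool) → Bool) (y : J → Bool) :
    fh (fun x => F (par cl x)) y = ∑ k, if y = rep cl k then fh F k else 0 := by
  unfold fh
  have h1 : ∀ x : J → Bool, chi x y * sg (F (par cl x)) =
      ∑ k, fh F k * (chi y x * chi (rep cl k) x) := by
    intro x
    rw [fh_inv F (par cl x), mul_sum]
    refine sum_congr rfl fun k _ => ?_
    rw [chi_par, chi_comm x y, chi_comm x (rep cl k)]
    ring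
  simp_rw [h1]
  rw [sum_comm, sum_div]
  refine sum_congr rfl fun k _ => ?_
  rw [← mul_sum, sum_chi_mul]
  split_ifs
  · rw [mul_div_assoc, div_self (by positivity), mul_one]
    rfl
  · rw [mul_zero, zero_div]

/-- **Fourier sampling of `F ∘ par` gives the code word of a Fourier sample of `F`** -/
theorem sum_fh_par {cl : J → T} (hcl : Function.Surjective cl) (F : (T → Bool) → Bool)
    (G : (J → Bool) → ℝ) :
    ∑ y, fh (fun x => F (par cl x)) y ^ 2 * G y = ∑ k, fh F k ^ 2 * G (rep cl k) := by
  have h1 : ∀ y, fh (fun x => F (par cl x)) y ^ 2 * G y =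
      ∑ k, if y = rep cl k then fh F k ^ 2 * G (rep cl k) else 0 := by
    intro y
    rw [fh_par]
    by_cases h : ∃ k, y = rep cl k
    · obtain ⟨k, rfl⟩ := h
      rw [sum_eq_single k, sum_eq_single k, if_pos rfl, if_pos rfl]
      · intro k' _ hk'
        rw [if_neg]
        intro h
        exact hk' (rep_injective hcl h).symm
      · intro h
        exact absurd (mem_univ _) h
      · intro k' _ hk'
        rw [if_neg]
        intro h
        exact hk' (rep_injective hcl h).symm
      · intro h
        exact absurd (mem_univ _) h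
    · push Not at h
      rw [sum_eq_zero, sum_eq_zero]
      · ring
      · intro k _
        rw [if_neg (h k)]
      · intro k _
        rw [if_neg (h k)]
  simp_rw [h1]
  rw [sum_comm]
  refine sum_congr rfl fun k _ => ?_
  rw [sum_ite_eq' univ (rep cl k), if_pos (mem_univ _)]

/-- decoding is correct if in every class the errors are a minority -/
theorem dec_rep {cl : J → T} {c : J → Bool}
    (h : ∀ i, (univ.filter fun j => cl j = i ∧ c j = true).card <
      (univ.filter fun j => cl j = i ∧ c j = false).card) (k : T → Bool) :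
    dec cl (fun j => xor (rep cl k j) (c j)) = k := by
  funext i
  unfold dec
  have key : ∀ b : Bool, (univ.filter fun j => cl j = i ∧ xor (rep cl k j) (c j) = b) =
      univ.filter fun j => cl j = i ∧ c j = xor (k i) b := by
    intro b
    ext j
    simp only [mem_filter, mem_univ, true_and, rep]
    constructor
    · rintro ⟨h1, h2⟩
      rw [h1] at h2
      refine ⟨h1, ?_⟩
      rw [← h2]
      cases k i <;> simp
    · rintro ⟨h1, h2⟩
      rw [h1, h2]
      refine ⟨rfl, ?_⟩
      cases k i <;> simp
  rw [key, key]
  have h1 := h i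
  cases hk : k i
  · simp only [Bool.false_xor, decide_eq_false_iff_not]
    omega
  · simp only [Bool.true_xor, Bool.not_false, Bool.not_true, decide_eq_true_eq]
    exact h1

theorem sum_sg_eq (S : Finset J) (c : J → Bool) :
    ∑ j ∈ S, sg (c j) = ((S.filter fun j => c j = false).card : ℝ) -
      (S.filter fun j => c j = true).card := by
  have h2 : ∀ j, sg (c j) = (if c j = false then (1 : ℝ) else 0) - if c j = true then 1 else 0 := by
    intro j
    cases c j <;> simp
  simp_rw [h2]
  rw [sum_sub_distrib, sum_boole, sum_boole]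

open Classical in
/-- **majority decoding**: if the errors are independent bits with biases at least `δ0` and all classes have at least
`l` elements, then some class has a wrong majority with probability at most `|T| (1 - δ0²/4)^l` -/
theorem dec_error {cl : J → T} {l : ℕ}
    (hl : ∀ i, l ≤ (univ.filter fun j => cl j = i).card) {δ : J → ℝ} {δ0 : ℝ} (h0 : 0 ≤ δ0)
    (h1 : ∀ j, δ0 ≤ δ j) (h2 : ∀ j, δ j ≤ 1) (hδ1 : δ0 ≤ 1) :
    mext δ (fun c => if ∀ i, (univ.filter fun j => cl j = i ∧ c j = true).card <
      (univ.filter fun j => cl j = i ∧ c j = false).card then 0 else 1) ≤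
      Fintype.card T * (1 - δ0 ^ 2 / 4) ^ l := by
  have hab : ∀ j, |δ j| ≤ 1 := fun j => abs_le.2 ⟨by linarith [h1 j], h2 j⟩
  have hq0 : 0 ≤ 1 - δ0 ^ 2 / 4 := by nlinarith
  have hq1 : 1 - δ0 ^ 2 / 4 ≤ 1 := by nlinarith [sq_nonneg δ0]
  have h3 : ∀ c : J → Bool, (if ∀ i, (univ.filter fun j => cl j = i ∧ c j = true).card <
      (univ.filter fun j => cl j = i ∧ c j = false).card then (0 : ℝ) else 1) ≤
      ∑ i, if 0 < ∑ j ∈ univ.filter (fun j => cl j = i), sg (c j) then 0 else 1 := by
    intro c
    have hnn : ∀ i ∈ (univ : Finset T), (0 : ℝ) ≤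
        if 0 < ∑ j ∈ univ.filter (fun j => cl j = i), sg (c j) then 0 else 1 := by
      intro i _
      split_ifs <;> norm_num
    split_ifs with h
    · exact sum_nonneg hnn
    · push Not at h
      obtain ⟨i, hi⟩ := h
      refine le_trans ?_ (single_le_sum hnn (mem_univ i))
      rw [if_neg]
      rw [sum_sg_eq, filter_filter, filter_filter, not_lt, sub_nonpos]
      exact_mod_cast hi
  refine (mext_mono hab h3).trans ?_
  rw [mext_sum]
  have h4 : ∀ i ∈ (univ : Finset T), mext δ (fun c =>
      if 0 < ∑ j ∈ univ.filter (fun j => cl j = i), sg (c j) then (0 : ℝ) else 1) ≤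
      (1 - δ0 ^ 2 / 4) ^ l := by
    intro i _
    refine (hoeff_on (θ := fun j b => (1 + sg b * δ j) / 2) (V := fun _ b => sg b)
      (fun j b => mext_weight_nonneg (hab j) b) (fun j => sum_bool_mean _)
      (univ.filter fun j => cl j = i) (fun j _ b => (Pool.Agent.Helper67.EQP.abs_sg b).le)
      h0 hδ1 (fun j _ => ?_)).trans (pow_le_pow_of_le_one hq0 hq1 (hl i))
    rw [Fintype.sum_bool]
    simp only [Pool.Agent.Helper67.EQP.sg_true, Pool.Agent.Helper67.EQP.sg_false]
    linarith [h1 j]
  refine (sum_le_sum h4).trans ?_
  rw [sum_const, card_univ, nsmul_eq_mul]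

end Pool.Agent.Helper65.NQ
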