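import Pool.Agent.Helper65.NQ.AMean
import Pool.Agent.Helper65.NQ.Quad
import Pool.Agent.Helper80.NQ.Iface
import Pool.Agent.Helper74.NQ.Bridge
import Pool.Agent.Helper74.NQ.Law

/-!
# NQ: the mean of the vote of one run of the device
-/

set_option autoImplicit false

namespace Pool.Agent.Helper65.NQ

open Finset
open Pool.Agent.Helper80.NQ
open Pool.Agent.Helper74.NQ (outProb comb clB clH body ff mu qq dl law)
open Pool.Agent.Helper67.EQP (Idx Yes No sg spin had mext)

variable {A : List Bool → Bool} {κ : List Bool} {M : ℕ}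
  {X : Idx (Pool.Agent.Helper67.EQP.par κ) → Bool}

/-- the string read by the oracle gate, if the header is decoded correctly -/
theorem stores_comb (hS : Stores A κ X) (hsize : 13 * κ.length + 20 ≤ size κ M)
    (hh : Hd κ M → Bool) (hk : dec (clH κ M) hh = κ.get) (x : Bd κ M → Bool) :
    A (List.ofFn (comb hh x)) = flag (beam (fun i => X (Sum.inl (Sum.inl i))) quad)
      (par (clB κ M) x) := by
  have hpr : ∀ j : Fin (2 * Pool.Agent.Helper67.EQP.par κ + 6),
      pr (comb hh x) j.1 = par (clB κ M) x j := fun j =>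
    Pool.Agent.Helper74.NQ.par_comb hh x j
  rw [hS.1 M (comb hh x) hsize fun j => by
    rw [Pool.Agent.Helper74.NQ.dec_comb hh x j, hk]]
  have h5 := hpr ⟨2 * Pool.Agent.Helper67.EQP.par κ + 5, by omega⟩
  have h4 := hpr ⟨2 * Pool.Agent.Helper67.EQP.par κ + 4, by omega⟩
  have hj : (fun j : Fin (2 * Pool.Agent.Helper67.EQP.par κ + 4) => pr (comb hh x) j.1) =
      Fin.init (Fin.init (par (clB κ M) x)) := by
    funext j
    exact hpr ⟨j.1, by omega⟩
  rw [hj]
  simp only at h4 h5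
  rw [h4, h5]
  rfl

/-- the vote as a function of the majorities of the body -/
theorem vote_eq (hS : Stores A κ X) (z : Qb κ M → Bool) :
    (vote A κ M z : ℝ) = gval (fun k => X (Sum.inl (Sum.inr k))) (dec (clB κ M) (body z)) := by
  have hm : ∀ j : Fin (2 * Pool.Agent.Helper67.EQP.par κ + 6),
      maj z j.1 = dec (clB κ M) (body z) j := fun j => Pool.Agent.Helper74.NQ.maj_eq z j
  have h5 := hm ⟨2 * Pool.Agent.Helper67.EQP.par κ + 5, by omega⟩
  have h4 := hm ⟨2 * Pool.Agent.Helper67.EQP.par κ + 4, by omega⟩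
  have hj : (fun j : Fin (2 * Pool.Agent.Helper67.EQP.par κ + 4) => maj z j.1) =
      Fin.init (Fin.init (dec (clB κ M) (body z))) := by
    funext j
    exact hm ⟨j.1, by omega⟩
  unfold vote gval
  rw [hj, hS.2]
  simp only at h4 h5
  rw [h4, h5]
  have h6 : dec (clB κ M) (body z) (Fin.last (2 * Pool.Agent.Helper67.EQP.par κ + 5)) =
      dec (clB κ M) (body z) ⟨2 * Pool.Agent.Helper67.EQP.par κ + 5, by omega⟩ := rfl
  rw [h6]
  split_ifs
  · rw [sg_spin]
    rfl
  · exact Int.cast_zero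

/-- **the mean of the vote** -/
theorem mean_close (hS : Stores A κ X) (hsize : 13 * κ.length + 20 ≤ size κ M)
    {lam : ℕ → Qb κ M → ℝ} (hr : ∀ q, ∀ p < 4, 0 ≤ lam p q ∧ lam p q ≤ 1) {th : ℝ}
    (h0 : 0 ≤ th) (h1 : th ≤ 1)
    (hth : ∀ q, th ≤ (1 - lam 0 q) * (1 - lam 1 q) * ((1 - lam 2 q) * (1 - lam 3 q)))
    {l : ℕ} (hl : ∀ j < cls κ, l ≤ (univ.filter fun i : Fin (size κ M) => i.1 % cls κ = j).card)
    (hε : (cls κ : ℝ) * (1 - th ^ 2 / 4) ^ l ≤ 1 / 64) :
    |∑ z, outProb A lam (steps κ M) z * (vote A κ M z : ℝ) -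
      qq lam * (((Pool.Agent.Helper73.NQ.forr (Pool.Agent.Helper67.EQP.par κ) X : ℤ) : ℝ) /
        8 ^ (Pool.Agent.Helper67.EQP.par κ + 2))| ≤ 1 / 32 := by
  unfold Pool.Agent.Helper73.NQ.forr
  have hcls : cls κ = κ.length + (2 * Pool.Agent.Helper67.EQP.par κ + 6) := rfl
  -- classes are not empty
  have hl0 : 1 ≤ l := by
    by_contra hcon
    have : l = 0 := by omega
    rw [this, pow_zero, mul_one] at hε
    have h2 : (1 : ℝ) ≤ cls κ := by
      have : 1 ≤ cls κ := by omega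
      exact_mod_cast this
    linarith
  have hlB : ∀ i, l ≤ (univ.filter fun j => clB κ M j = i).card := fun i => by
    rw [Pool.Agent.Helper74.NQ.card_clB]
    exact hl _ (by have := i.2; omega)
  have hlH : ∀ i, l ≤ (univ.filter fun j => clH κ M j = i).card := fun i => by
    rw [Pool.Agent.Helper74.NQ.card_clH]
    exact hl _ (by have := i.2; omega)
  have hsurj : Function.Surjective (clB κ M) := by
    intro i
    have h2 := hlB i
    obtain ⟨j, hj⟩ := card_pos.1 (by omega : 0 < (univ.filter fun j => clB κ M j = i).card)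
    exact ⟨j, (mem_filter.1 hj).2⟩
  -- the factors
  have hfac : ∀ q p, p < 4 → 0 ≤ 1 - lam p q ∧ 1 - lam p q ≤ 1 := fun q p hp =>
    ⟨by linarith [(hr q p hp).2], by linarith [(hr q p hp).1]⟩
  have h01 : ∀ q, 0 ≤ (1 - lam 0 q) * (1 - lam 1 q) ∧ (1 - lam 0 q) * (1 - lam 1 q) ≤ 1 := by
    intro q
    have a := hfac q 0 (by norm_num)
    have b := hfac q 1 (by norm_num)
    exact ⟨mul_nonneg a.1 b.1, mul_le_one₀ a.2 b.1 b.2⟩
  have h23 : ∀ q, 0 ≤ (1 - lam 2 q) * (1 - lam 3 q) ∧ (1 - lam 2 q) * (1 - lam 3 q) ≤ 1 := by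
    intro q
    have a := hfac q 2 (by norm_num)
    have b := hfac q 3 (by norm_num)
    exact ⟨mul_nonneg a.1 b.1, mul_le_one₀ a.2 b.1 b.2⟩
  have hα1 : ∀ i : Hd κ M, th ≤ (1 - lam 0 (Sum.inl i)) * (1 - lam 1 (Sum.inl i)) := by
    intro i
    refine (hth (Sum.inl i)).trans ?_
    exact mul_le_of_le_one_right (h01 _).1 (h23 _).2
  have hδ2 : ∀ j : Bd κ M, dl lam j ≤ 1 := by
    intro j
    exact mul_le_one₀ (h01 _).2 (h23 _).1 (h23 _).2
  have hq0 : 0 ≤ qq lam := by
    have := h01 (Sum.inr (Sum.inr ()))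
    unfold qq
    linarith [this.1]
  have hq1 : qq lam ≤ 1 := by
    have := h01 (Sum.inr (Sum.inr ()))
    unfold qq
    linarith [this.2]
  -- the law
  have hlaw := law A lam (fun i : Hd κ M => κ.getD (i.1.1 % cls κ) false)
    ((List.finRange (size κ M)).map (wire κ M)) (target_notMem κ M)
    (fun y => gval (fun k => X (Sum.inl (Sum.inr k))) (dec (clB κ M) y))
  have hE : ∑ z, outProb A lam (steps κ M) z * (vote A κ M z : ℝ) =
      mext (fun i : Hd κ M => sg (κ.get (clH κ M i)) *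
        ((1 - lam 0 (Sum.inl i)) * (1 - lam 1 (Sum.inl i))))
      (fun hh => qq lam * mext (dl lam) (fun c =>
        ∑ k, fh (fun x => A (List.ofFn (comb hh x))) k ^ 2 *
          gval (fun k => X (Sum.inl (Sum.inr k))) (dec (clB κ M) (fun j => xor (k j) (c j)))) +
          (1 - qq lam) * mext (dl lam)
            (fun c => gval (fun k => X (Sum.inl (Sum.inr k))) (dec (clB κ M) c))) := by
    have e1 : mu lam (fun i : Hd κ M => κ.getD (i.1.1 % cls κ) false) =
        fun i : Hd κ M => sg (κ.get (clH κ M i)) *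
        ((1 - lam 0 (Sum.inl i)) * (1 - lam 1 (Sum.inl i))) := by
      funext i
      unfold mu
      show sg (κ.getD (i.1.1 % cls κ) false) * _ = _
      rw [Pool.Agent.Helper74.NQ.hdval_eq]
    have e2 : ∀ hh : Hd κ M → Bool, ff A ((List.finRange (size κ M)).map (wire κ M)) hh =
        fun x => A (List.ofFn (comb hh x)) := fun hh => by
      funext x
      exact Pool.Agent.Helper74.NQ.ff_wire A κ M hh x
    rw [e1] at hlaw
    simp_rw [e2] at hlaw
    rw [← hlaw]
    refine sum_congr rfl fun z _ => ?_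
    rw [vote_eq hS]
    rfl
  rw [hE]
  have h2 := abs_mean (clH := clH κ M) (clB := clB κ M) hsurj hlH hlB (kap := κ.get)
    (hd := fun i => κ.get (clH κ M i)) (fun _ => rfl) h0 h1 hα1 (fun i => (h01 _).2)
    (δ := dl lam) (fun j => hth _) hδ2
    (ffn := fun hh x => A (List.ofFn (comb hh x)))
    (F := flag (beam (fun i => X (Sum.inl (Sum.inl i))) quad))
    (fun hh hk => funext fun x => stores_comb hS hsize hh hk x) hq0 hq1
    (g := gval (fun k => X (Sum.inl (Sum.inr k)))) (abs_gval_le _)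
    (by unfold gval; rw [if_neg (by simp)])
  rw [sum_gval] at h2
  refine h2.trans ?_
  rw [Fintype.card_fin, Fintype.card_fin]
  have h3 : ((κ.length : ℝ) + ((2 * Pool.Agent.Helper67.EQP.par κ + 6 : ℕ) : ℝ)) = cls κ := by
    rw [hcls]
    push_cast
    ring
  rw [h3]
  linarith

/-- the target qubit works with probability at least one half -/
theorem qq_ge {lam : ℕ → Qb κ M → ℝ} (hr : ∀ q, ∀ p < 4, 0 ≤ lam p q ∧ lam p q ≤ 1) :
    1 / 2 ≤ qq lam := by
  unfold qq
  have a := hr (Sum.inr (Sum.inr ())) 0 (by norm_num)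
  have b := hr (Sum.inr (Sum.inr ())) 1 (by norm_num)
  nlinarith [mul_nonneg (by linarith [a.2] : 0 ≤ 1 - lam 0 (Sum.inr (Sum.inr ())))
    (by linarith [b.2] : 0 ≤ 1 - lam 1 (Sum.inr (Sum.inr ())))]

private theorem num_yes {E q f P : ℝ} (hP : 0 < P) (hq : 1 / 2 ≤ q) (hf : 63 * P ≤ 2 * f)
    (h : |E - q * (f / (64 * P))| ≤ 1 / 32) : 1 / 6 ≤ E := by
  have h6 : (63 : ℝ) / 128 ≤ f / (64 * P) := by
    rw [div_le_div_iff₀ (by norm_num) (by positivity)]
    linarith
  have h7 : (1 / 2) * (63 / 128) ≤ q * (f / (64 * P)) :=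
    mul_le_mul hq h6 (by norm_num) (by linarith)
  have h8 := (abs_le.1 h).1
  linarith

/-- **the mean of the vote is at least 1/6 on yes-instances and at most -1/6 on no-instances** -/
theorem mean_vote (hS : Stores A κ X) (hsize : 13 * κ.length + 20 ≤ size κ M)
    {lam : ℕ → Qb κ M → ℝ} (hr : ∀ q, ∀ p < 4, 0 ≤ lam p q ∧ lam p q ≤ 1) {th : ℝ}
    (h0 : 0 ≤ th) (h1 : th ≤ 1)
    (hth : ∀ q, th ≤ (1 - lam 0 q) * (1 - lam 1 q) * ((1 - lam 2 q) * (1 - lam 3 q)))
    {l : ℕ} (hl : ∀ j < cls κ, l ≤ (univ.filter fun i : Fin (size κ M) => i.1 % cls κ = j).card)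
    (hε : (cls κ : ℝ) * (1 - th ^ 2 / 4) ^ l ≤ 1 / 64) :
    (Yes (Pool.Agent.Helper67.EQP.par κ) X →
      1 / 6 ≤ ∑ z, outProb A lam (steps κ M) z * (vote A κ M z : ℝ)) ∧
    (No (Pool.Agent.Helper67.EQP.par κ) X →
      ∑ z, outProb A lam (steps κ M) z * (vote A κ M z : ℝ) ≤ -(1 / 6)) := by
  have h2 := mean_close hS hsize hr h0 h1 hth hl hε
  have h3 := qq_ge hr
  have h8' : (8 : ℝ) ^ (Pool.Agent.Helper67.EQP.par κ + 2) =
      64 * 8 ^ Pool.Agent.Helper67.EQP.par κ := by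
    rw [pow_add]
    ring
  rw [h8'] at h2
  constructor
  · intro hY
    have h4 := Pool.Agent.Helper73.NQ.forr_yes hY
    refine num_yes (P := 8 ^ Pool.Agent.Helper67.EQP.par κ) (by positivity) h3 ?_ h2
    exact_mod_cast h4
  · intro hN
    have h4 := Pool.Agent.Helper73.NQ.forr_no hN
    have h5 := num_yes (E := -∑ z, outProb A lam (steps κ M) z * (vote A κ M z : ℝ))
      (f := -((Pool.Agent.Helper73.NQ.forr (Pool.Agent.Helper67.EQP.par κ) X : ℤ) : ℝ))
      (P := 8 ^ Pool.Agent.Helper67.EQP.par κ) (by positivity) h3 (by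
        have h6 : 2 * ((Pool.Agent.Helper73.NQ.forr (Pool.Agent.Helper67.EQP.par κ) X : ℤ) : ℝ) ≤
            -(63 * 8 ^ Pool.Agent.Helper67.EQP.par κ) := by exact_mod_cast h4
        linarith) (by
        rw [← abs_neg]
        refine le_trans (le_of_eq ?_) h2
        congr 1
        ring)
    linarith

end Pool.Agent.Helper65.NQ
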